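import Pool.Agent.Q117.LF.Chn

/-!
MP_9f2731_nt (long Cunningham chains of the second kind): every string of kinds (second or first), exact lengths and gaps of consecutive almost prime chains, with an
actual prime and a product of at most two primes at any two places, with the right order of magnitude, uniformly in the gaps up to the natural scale.
-/

set_option autoImplicit false

namespace Pool.Agent.Results.MP_9f2731_nt.KindsInEveryOrder

/-- all prime factors of `m` are `> z` (so `0` is not rough) -/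
def Rough (z : ℝ) (m : ℤ) : Prop := ∀ p : ℕ, p.Prime → (p : ℤ) ∣ m → z < p

/-- at most two prime factors (with multiplicity), all `> z` -/
def AtMostTwo (z : ℝ) (m : ℤ) : Prop := m.natAbs.primeFactorsList.length ≤ 2 ∧ Rough z m

/-- the term `x` of the Cunningham sequence of `m`: of the second kind, `2 ^ x (m - 1) + 1`, if `e = false`, and of the first kind, `2 ^ x (m + 1) - 1`, if `e = true` -/
def term (e : Bool) (x : ℕ) (m : ℤ) : ℤ := if e then 2 ^ x * (m + 1) - 1 else 2 ^ x * (m - 1) + 1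

/-- `m` starts an almost prime chain of the kind `e` of length at least `ℓ` -/
def Chain (z : ℝ) (e : Bool) (ℓ : ℕ) (m : ℤ) : Prop := ∀ x < ℓ, Rough z (term e x m)

/-- `m` starts an almost prime chain of the kind `e` of exact length `ℓ` -/
def ExactLength (z : ℝ) (e : Bool) (ℓ : ℕ) (m : ℤ) : Prop := Chain z e ℓ m ∧ ¬ Rough z (term e ℓ m)

/-- the number of the residues `n` modulo `p` for which `p` divides one of the first `ℓ j` terms of the sequence of kind `κ j` of one of the `n + D j` -/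
noncomputable def omega {J : ℕ} (κ : Fin (J + 1) → Bool) (ℓ D : Fin (J + 1) → ℕ) (p : ℕ) : ℕ :=
  {n : ℕ | n < p ∧ ∃ j, ∃ x < ℓ j, (p : ℤ) ∣ term (κ j) x (n + D j)}.ncard

/-- the `n ∈ (X, 2X]` such that the pairs `(e, m)` with `|m - n| ≤ L` for which `m` starts an almost prime chain of the kind `e` of length at least `K` are exactly the
pairs `(κ j, n + D j)`, this chain has exact length `ℓ j`, the term `x₁` for `n + D j₁` is prime and the term `x₂` for `n + D j₂` has at most two prime factors, all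
`> X ^ (1/9)` -/
def Good {J : ℕ} (z X L : ℝ) (K : ℕ) (κ : Fin (J + 1) → Bool) (ℓ D : Fin (J + 1) → ℕ) (j₁ j₂ : Fin (J + 1)) (x₁ x₂ : ℕ) : Set ℕ :=
  {n : ℕ | X < n ∧ (n : ℝ) ≤ 2 * X ∧ (∀ j, ExactLength z (κ j) (ℓ j) (n + D j)) ∧
    (∀ e, ∀ m : ℤ, |((m - n : ℤ) : ℝ)| ≤ L → (Chain z e K m ↔ ∃ j, m = n + D j ∧ e = κ j)) ∧
    (term (κ j₁) x₁ (n + D j₁)).toNat.Prime ∧ AtMostTwo (X ^ (1 / 9 : ℝ)) (term (κ j₂) x₂ (n + D j₂))}

theorem term_eq (e : Bool) (x : ℕ) (m : ℤ) : Pool.Agent.Q117.LF.cv e x m = term e x m := by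
  unfold Pool.Agent.Q117.LF.cv term Pool.Agent.Q117.LF.sg
  cases e
  · simp only [Bool.false_eq_true, if_false]
    ring
  · simp only [if_true]
    ring

theorem om_eq {J : ℕ} (κ : Fin (J + 1) → Bool) (ℓ D : Fin (J + 1) → ℕ) (p : ℕ) : Pool.Agent.Q117.LF.oC ℓ κ D p = omega κ ℓ D p := by
  unfold Pool.Agent.Q117.LF.oC omega
  rw [← Set.ncard_coe_finset]
  congr 1
  ext q
  simp only [Finset.coe_filter, Finset.mem_range, Set.mem_setOf_eq, term_eq]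

theorem result : ∀ (J K : ℕ) (κ : Fin (J + 1) → Bool) (ℓ : Fin (J + 1) → ℕ), 2 ≤ K → (∀ j, K ≤ ℓ j) →
    ∀ (j₁ j₂ : Fin (J + 1)) (x₁ x₂ : ℕ), x₁ < ℓ j₁ → x₂ < ℓ j₂ → (j₁ ≠ j₂ ∨ x₁ ≠ x₂) →
    ∃ t : ℕ, 1 ≤ t ∧ ∃ c : ℝ, 0 < c ∧ ∃ ν : ℝ, 0 < ν ∧ ∃ X0 : ℝ, ∀ X : ℝ, X0 ≤ X →
      ∀ D : Fin (J + 1) → ℕ, StrictMono D → (∀ j, (D j : ℝ) ≤ ν * Real.log X ^ K) →
        (∀ p : ℕ, p.Prime → ∃ n : ℕ, ∀ j, ∀ x < ℓ j, ¬ (p : ℤ) ∣ term (κ j) x (n + D j)) →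
        c * (X * ∏ p ∈ (Finset.Icc 1 ⌊X⌋₊).filter Nat.Prime, (1 - (omega κ ℓ D p : ℝ) / p)) ≤
          ((Good (X ^ (1 / (t : ℝ))) X (ν * Real.log X ^ K) K κ ℓ D j₁ j₂ x₁ x₂).ncard : ℝ) := by
  intro J K κ ℓ hK hℓ j₁ j₂ x₁ x₂ h₁ h₂ hne
  obtain ⟨t, ht, c, hc, ν, hν, X0, h⟩ := Pool.Agent.Q117.LF.chn J ℓ κ K (by omega) hℓ j₁ j₂ x₁ x₂ h₁ h₂ hne
  refine ⟨t, ht, c, hc, ν, hν, X0, fun X hX D hD hDν hadm => ?_⟩
  have h1 := h X hX D hD hDν (fun p hp => by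
    obtain ⟨n, hn⟩ := hadm p hp
    exact ⟨n, fun j x hx => by rw [term_eq]; exact hn j x hx⟩)
  simp only [om_eq] at h1
  refine h1.trans ?_
  have hfin : (Good (X ^ (1 / (t : ℝ))) X (ν * Real.log X ^ K) K κ ℓ D j₁ j₂ x₁ x₂).Finite := by
    apply Set.Finite.subset (Set.finite_Iic ⌊2 * X⌋₊)
    rintro n ⟨-, h2, -⟩
    exact Nat.le_floor h2
  rw [Nat.cast_le]
  apply Set.ncard_le_ncard _ hfin
  rintro n ⟨g1, g2, g3, g4, g5, g6⟩
  simp only [term_eq] at g3 g4 g5 g6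
  refine ⟨g1, g2, g3, fun e m hm => ⟨fun hc => ?_, ?_⟩, g5, g6⟩
  · obtain ⟨j, hj, hj2⟩ := g4 e m hm (fun x hx => hc x hx)
    exact ⟨j, hj, hj2 hK⟩
  · rintro ⟨j, rfl, rfl⟩ x hx
    exact (g3 j).1 x (lt_of_lt_of_le hx (hℓ j))

end Pool.Agent.Results.MP_9f2731_nt.KindsInEveryOrder
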