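import Pool.Agent.Q250.NP.NatRow

/-!
# Almost prime Cunningham chains of the second kind with a prime at a prescribed position: narrow progressions
-/

set_option autoImplicit false

namespace Pool.Agent.Results.MP_9f2731_nt.PrimeAtAnyPosition

open Finset Filter Polynomial
open Pool.Agent.Q250.NP
open Pool.Agent.Q253.Line (W NFD rt)

/-- the `i`-th term of the chain of the second kind which starts with `n` -/
def term (i n : ℕ) : ℕ := 2 ^ i * (n - 1) + 1

/-- the number of the classes `x` modulo `p` for which `p` divides one of the numbers `2 ^ i (x - 1) + 1`, `i ≤ k` -/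
def omega (k p : ℕ) : ℕ := ((range p).filter (fun x : ℕ => ∃ i, i < k + 1 ∧ (p : ℤ) ∣ 2 ^ i * ((x : ℤ) - 1) + 1)).card

/-- the product of `1 - omega k p / p` over the primes `p ≤ n` -/
noncomputable def dens (k n : ℕ) : ℝ := ∏ p ∈ (Icc 1 n).filter Nat.Prime, (1 - (omega k p : ℝ) / p)

open Classical in
/-- the `n < y < 2 n` such that the chain of length `k + 1` starting with `y` has a prime at the position `j` and no prime
factors `≤ n ^ (1/t)` at the other positions -/
noncomputable def Good (k : ℕ) (j : Fin (k + 1)) (t n : ℕ) : Finset ℕ :=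
  (Ioo n (2 * n)).filter (fun y : ℕ => (term j y).Prime ∧
    ∀ i : Fin (k + 1), i ≠ j → ∀ p : ℕ, p.Prime → p ∣ term i y → (n : ℝ) ^ (1 / (t : ℝ)) < p)

/-- the polynomials -/
noncomputable def G (i : ℕ) : ℤ[X] := C ((2 : ℤ) ^ i) * X + C (1 - (2 : ℤ) ^ i)

theorem eval_G (i : ℕ) (x : ℤ) : (G i).eval x = 2 ^ i * (x - 1) + 1 := by
  unfold G
  simp
  ring

theorem term_cast (i : ℕ) {y : ℕ} (hy : 1 ≤ y) : ((term i y : ℕ) : ℤ) = 2 ^ i * ((y : ℤ) - 1) + 1 := by
  unfold term
  push_cast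
  rw [Nat.cast_sub hy]
  push_cast
  ring

theorem eval_nat (i : ℕ) {y : ℕ} (hy : 1 ≤ y) : (G i).eval (y : ℤ) = (term i y : ℤ) := by
  rw [eval_G, term_cast i hy]

theorem term_ge (i y : ℕ) : y ≤ term i y := by
  unfold term
  have h : 1 * (y - 1) ≤ 2 ^ i * (y - 1) := Nat.mul_le_mul_right _ (Nat.one_le_two_pow)
  omega

theorem term_gt {i y n : ℕ} (h : n < y) : n < term i y := lt_of_lt_of_le h (term_ge i y)

theorem repr (k : ℕ) (j : Fin (k + 1)) {n : ℕ} (hn : 2 ^ (k + 2) ≤ n) :
    Rep k 2 n ((2 : ℤ) ^ (j : ℕ)) (1 - (2 : ℤ) ^ (j : ℕ)) (term j) (fun i : Fin k => term (j.succAbove i))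
      (fun i : Fin k => G (j.succAbove i)) := by
  have hn4 : 4 ≤ n := le_trans (by
    rw [pow_add]
    have := Nat.one_le_two_pow (n := k)
    omega) hn
  constructor
  · refine (natDegree_prod_le _ _).trans ?_
    calc _ ≤ ∑ _i : Fin k, 1 := sum_le_sum fun i _ => natDegree_linear_le
      _ = k := by simp
  · intro p hp
    refine ⟨1, ?_⟩
    have h1 : ((C ((2 : ℤ) ^ (j : ℕ)) * X + C (1 - (2 : ℤ) ^ (j : ℕ))) * ∏ i : Fin k, G (j.succAbove i)).eval 1 =
        1 := by
      rw [eval_mul, eval_prod, prod_congr rfl (fun i _ => eval_G _ 1)]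
      simp
    rw [h1]
    intro h2
    have h3 := Int.natAbs_dvd_natAbs.2 h2
    simp at h3
    exact hp.one_lt.ne' h3
  · intro y h1 h2
    refine ⟨?_, term_gt h1⟩
    have h3 : (2 : ℤ) ^ (j : ℕ) * y + (1 - 2 ^ (j : ℕ)) = (term j y : ℤ) := by
      rw [term_cast j (by omega)]
      ring
    rw [h3, Int.natAbs_natCast]
  · intro y h1 h2 i
    rw [eval_nat _ (by omega), Int.natAbs_natCast]
  · intro y h1 h2 i
    refine ⟨by have := term_gt (i := j.succAbove i) h1; omega, ?_⟩
    unfold term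
    have h3 : 2 ^ ((j.succAbove i : Fin (k + 1)) : ℕ) ≤ 2 ^ k := Nat.pow_le_pow_right (by norm_num) (by
      have := (j.succAbove i).2
      omega)
    have h4 : 2 ^ ((j.succAbove i : Fin (k + 1)) : ℕ) * (y - 1) + 1 ≤ 2 ^ k * (2 * n) := by
      have h5 : 2 ^ ((j.succAbove i : Fin (k + 1)) : ℕ) * (y - 1) ≤ 2 ^ k * (2 * n - 1) := Nat.mul_le_mul h3 (by omega)
      have h6 := Nat.one_le_two_pow (n := k)
      have h7 : 2 ^ k * (2 * n - 1) + 2 ^ k = 2 ^ k * (2 * n) := by
        have : 2 * n = (2 * n - 1) + 1 := by omega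
        rw [this, Nat.mul_add, mul_one, Nat.add_sub_cancel]
      omega
    have h5 : 2 ^ k * (2 * n) ≤ n ^ 2 := by
      have h6 : 2 ^ k * 2 ≤ n := le_trans (by
        rw [pow_add]
        have := Nat.one_le_two_pow (n := k)
        omega) hn
      calc 2 ^ k * (2 * n) = 2 ^ k * 2 * n := by ring
        _ ≤ n * n := Nat.mul_le_mul_right _ h6
        _ = n ^ 2 := by ring
    omega

theorem Good_eq (k : ℕ) (j : Fin (k + 1)) (t n : ℕ) :
    Good k j t n = T (term j) (fun i : Fin k => term (j.succAbove i)) t n := by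
  classical
  unfold Good T
  apply filter_congr
  intro y _
  constructor
  · rintro ⟨h1, h2⟩
    exact ⟨h1, fun i => h2 _ (Fin.succAbove_ne j i)⟩
  · rintro ⟨h1, h2⟩
    refine ⟨h1, fun i hi => ?_⟩
    obtain ⟨i', rfl⟩ := Fin.exists_succAbove_eq hi
    exact h2 i'

theorem dens_eq (k : ℕ) (j : Fin (k + 1)) (n : ℕ) :
    dens k n = W ((C ((2 : ℤ) ^ (j : ℕ)) * X + C (1 - (2 : ℤ) ^ (j : ℕ))) * ∏ i : Fin k, G (j.succAbove i)) n := by
  unfold dens W
  apply prod_congr rfl
  intro p hp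
  have hpp : p.Prime := (Pool.Agent.Q253.Line.mem_pr.1 hp).1
  have hpz := Nat.prime_iff_prime_int.1 hpp
  unfold omega rt
  congr 3
  apply congrArg Finset.card
  apply filter_congr
  intro x _
  rw [eval_mul, eval_prod]
  have h3 : (C ((2 : ℤ) ^ (j : ℕ)) * X + C (1 - (2 : ℤ) ^ (j : ℕ)) : ℤ[X]).eval (x : ℤ) = 2 ^ (j : ℕ) * ((x : ℤ) - 1) + 1 := by
    simp
    ring
  rw [h3]
  constructor
  · rintro ⟨i, hi, hd⟩
    by_cases h : (⟨i, hi⟩ : Fin (k + 1)) = j
    · subst h
      exact hd.mul_right _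
    · obtain ⟨i', hi'⟩ := Fin.exists_succAbove_eq h
      refine Dvd.dvd.mul_left (Dvd.dvd.trans ?_ (dvd_prod_of_mem _ (mem_univ i'))) _
      rw [eval_G, hi']
      exact hd
  · intro h
    rcases hpz.dvd_or_dvd h with h | h
    · exact ⟨j, j.2, h⟩
    · obtain ⟨i, _, hi⟩ := (Prime.dvd_finsetProd_iff hpz _).1 h
      rw [eval_G] at hi
      exact ⟨_, (j.succAbove i).2, hi⟩

/-- **Almost prime chains of the second kind with a prime at a prescribed position, in narrow progressions.** For every `k` there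
are `t ≥ 1` such that for every position `j ≤ k`:

(1) for large `n` there are at least `c n dens k n ≥ c' n / log ^ (k + 1) n` integers `y` in `(n, 2 n)` such that the chain
`2 ^ i (y - 1) + 1`, `i ≤ k`, has a prime at the position `j` and no prime factors `≤ n ^ (1/t)` at the others;

(2) for all `L` and `δ > 0` there is `D` such that for large `n` every subset of these `y` of relative density `δ` contains `L` terms of
an arithmetic progression with difference at most `log ^ D n`;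

(3) for all `L` and `q` there is `D` such that for large `n` and every colouring of the integers in `q` colours there are
`s_0, ..., s_k` with `s_j = 1` and `L` starting points `y` in `(n, 2 n)` of one colour, in arithmetic progression with difference at
most `log ^ D n`, such that in all these chains the term at the position `i` is a product of exactly `s_i ≤ 2 t` primes, all of them
larger than `n ^ (1/t)`. -/
theorem result (k : ℕ) : ∃ t : ℕ, 1 ≤ t ∧ ∀ j : Fin (k + 1), ∃ c : ℝ, 0 < c ∧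
    (∃ N : ℕ, ∀ n : ℕ, N ≤ n → c / Real.log n ^ (k + 1) ≤ dens k n ∧ c * (n * dens k n) ≤ ((Good k j t n).card : ℝ)) ∧
    (∀ (L : ℕ) (δ : ℝ), 0 < δ → ∃ D N : ℕ, ∀ n : ℕ, N ≤ n → ∀ S ⊆ Good k j t n, δ * ((Good k j t n).card : ℝ) ≤ S.card →
        ∃ x d : ℕ, 1 ≤ d ∧ (d : ℝ) ≤ Real.log n ^ D ∧ ∀ l < L, x + l * d ∈ S) ∧
    (∀ (L q : ℕ), 1 ≤ q → ∃ D N : ℕ, ∀ n : ℕ, N ≤ n →
      ∀ col : ℕ → Fin q, ∃ (s : Fin (k + 1) → ℕ) (b : Fin q) (x d : ℕ), s j = 1 ∧ (∀ i, 1 ≤ s i ∧ s i ≤ 2 * t) ∧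
        1 ≤ d ∧ (d : ℝ) ≤ Real.log n ^ D ∧ ∀ l < L, n < x + l * d ∧ x + l * d < 2 * n ∧ col (x + l * d) = b ∧
          ∀ i : Fin (k + 1), (term i (x + l * d)).primeFactorsList.length = s i ∧
            ∀ p : ℕ, p.Prime → p ∣ term i (x + l * d) → (n : ℝ) ^ (1 / (t : ℝ)) < p) := by
  classical
  obtain ⟨t, ht, H⟩ := natRow k k 2
  refine ⟨t, ht, fun j => ?_⟩
  obtain ⟨c, hc, ⟨N1, h1⟩, h2, h3⟩ := H ((2 : ℤ) ^ (j : ℕ)) (1 - (2 : ℤ) ^ (j : ℕ)) (by positivity)
  refine ⟨c, hc, ⟨max N1 (2 ^ (k + 2)), fun n hn => ?_⟩, fun L δ hδ => ?_, fun L q hq => ?_⟩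
  · rw [dens_eq k j, Good_eq]
    exact h1 n ((le_max_left _ _).trans hn) _ _ _ (repr k j ((le_max_right _ _).trans hn))
  · obtain ⟨D, N, h4⟩ := h2 L δ hδ
    refine ⟨D, max N (2 ^ (k + 2)), fun n hn S hS hSc => ?_⟩
    rw [Good_eq] at hS hSc
    exact h4 n ((le_max_left _ _).trans hn) _ _ _ (repr k j ((le_max_right _ _).trans hn)) S hS hSc
  · obtain ⟨D, N, h4⟩ := h3 L q hq
    refine ⟨D, max N (2 ^ (k + 2)), fun n hn col => ?_⟩
    have hn4 : 4 ≤ n := le_trans (by
      rw [pow_add]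
      have := Nat.one_le_two_pow (n := k)
      omega) ((le_max_right _ _).trans hn)
    obtain ⟨s, b, x, d, g1, g2, g3, g4⟩ := h4 n ((le_max_left _ _).trans hn) _ _ _
      (repr k j ((le_max_right _ _).trans hn)) col
    refine ⟨fun i => if h : i = j then 1 else s ((Fin.exists_succAbove_eq h).choose), b, x, d, by simp, fun i => ?_, g2, g3,
      fun l hl => ?_⟩
    · by_cases h : i = j
      · simp only [h, dif_pos]
        exact ⟨le_rfl, by omega⟩
      · simp only [h, dif_neg, not_false_eq_true]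
        have := g1 ((Fin.exists_succAbove_eq h).choose)
        exact ⟨this.1, by linarith [this.2]⟩
    · obtain ⟨g5, g6, g7⟩ := g4 l hl
      unfold T at g5
      rw [mem_filter, mem_Ioo] at g5
      refine ⟨g5.1.1, g5.1.2, g6, fun i => ?_⟩
      by_cases h : i = j
      · subst h
        simp only [dif_pos]
        refine ⟨by rw [Nat.primeFactorsList_prime g5.2.1]; rfl, fun p hp hpd => ?_⟩
        rw [(Nat.prime_dvd_prime_iff_eq hp g5.2.1).1 hpd]
        have h5 : (n : ℝ) ^ (1 / (t : ℝ)) ≤ n := by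
          have hnr : (1 : ℝ) ≤ n := by exact_mod_cast (by omega : 1 ≤ n)
          calc (n : ℝ) ^ (1 / (t : ℝ)) ≤ (n : ℝ) ^ (1 : ℝ) := by
                apply Real.rpow_le_rpow_of_exponent_le hnr
                rw [div_le_one (by exact_mod_cast ht)]
                exact_mod_cast ht
            _ = n := Real.rpow_one _
        have h6 : (n : ℝ) < term i (x + l * d) := by exact_mod_cast term_gt g5.1.1
        linarith
      · simp only [h, dif_neg, not_false_eq_true]
        have h7 := (Fin.exists_succAbove_eq h).choose_spec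
        have g8 := g7 ((Fin.exists_succAbove_eq h).choose)
        have g9 := g5.2.2 ((Fin.exists_succAbove_eq h).choose)
        simp only [h7] at g8 g9
        exact ⟨g8, g9⟩

end Pool.Agent.Results.MP_9f2731_nt.PrimeAtAnyPosition
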