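import Pool.Agent.Q84.OT4

set_option autoImplicit false

/-!
# Orbits of `2 x - 1`: recurring times near almost all elements of every large finite set

For an affine map `n ↦ D n + e` (`D = 2`, `e = -1` for the chains of the second kind, `e = 1` for the chains of the
first kind) call `j` a recurring time of level `T` if for every `η > 0` and arbitrarily large `x` there are at least
`x ^ (1 - η)` primes `p ≤ x` such that the term at time `j` of the orbit `p, D p + e, …` of `p` is the next prime
of the orbit, and moreover the `T` terms after time `j` are not prime and `p` is not a term at a time `1, …, T`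
of the orbit of a prime.

Let finitely many maps `n ↦ D_j n + e_j` with multipliers `A_j ≥ 1`, `j < r`, be given; for instance `r = 1` and
the map `n ↦ 2 n - 1`, or `r = 2` and both maps `n ↦ 2 n ± 1`. Let `R = 1 + r + r ^ 2 + … + r ^ (2 r)` (`R = 3` for
`r = 1`). There is `M` such that for EVERY multiple `N` of `M` there is `t ≤ R` such that for every `ε > 0` there
are `B` and `n₀` with the following property. EVERY finite set `F` of natural numbers with at least `n₀` elements
has `t` translates, by numbers `c_1, …, c_t ≤ B`, such that for all but at most `ε |F|` of the elements `u` of `F`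
one of the numbers `k = u + c_1, …, u + c_t` is good: ALL the numbers `A_j N k` are recurring times of level `T`
of their maps.

Proof: the coloured Maynard-Tao theorem for orbits and four classes (`Pool.Agent.Y862.consecM`), Ramsey's theorem
inside it for the intersections (`Pool.Agent.Q84.PP.inter`), and a compactness argument
(`Pool.Agent.Q84.MS.translates`): if among any `n + 1` large classes of integers two have a difference in a
symmetric set, a minimal number `t ≤ n` of far translates which is met by no further large class covers almost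
everything.
-/

namespace Pool.Agent.Results.MP_9f2731_nt.TimesNearEverySet

open Finset Filter

/-- the `j`-th term of the orbit of `p` under `n ↦ D n + e` (for `D ≥ 2`, `e > -D` and `p ≥ 1` all terms
are positive) -/
def orb (D : ℕ) (e : ℤ) (p j : ℕ) : ℕ := ((fun x : ℤ => D * x + e)^[j] (p : ℤ)).toNat

/-- `j` is a recurring time of level `T` for the map `n ↦ D n + e` -/
def Time (D : ℕ) (e : ℤ) (T j : ℕ) : Prop :=
  ∀ η : ℝ, 0 < η → ∃ᶠ x : ℝ in atTop,
    x ^ (1 - η) ≤ ({p : ℕ | (p : ℝ) ≤ x ∧ p.Prime ∧ (orb D e p j).Prime ∧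
      (∀ l, 0 < l → l < j → ¬ (orb D e p l).Prime) ∧
      ∀ l, 0 < l → l ≤ T → ¬ (orb D e p (j + l)).Prime ∧
        ∀ q : ℕ, q.Prime → orb D e q l ≠ p}.ncard : ℝ)

/-- `1 + r + r ^ 2 + … + r ^ (2 r)` -/
def R (r : ℕ) : ℕ := ∑ i ∈ range (2 * r + 1), r ^ i

/-- **Few translates of the set of recurring times cover almost all of every large finite set.** -/
theorem result (r : ℕ) (hr : 0 < r) (D A : Fin r → ℕ) (e : Fin r → ℤ) (hD : ∀ j, 2 ≤ D j)
    (he0 : ∀ j, e j ≠ 0) (he : ∀ j, -(D j : ℤ) < e j) (hcop : ∀ j, IsCoprime (e j) (D j : ℤ))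
    (hA : ∀ j, 0 < A j) (T : ℕ) :
    ∃ M : ℕ, 0 < M ∧ ∀ N : ℕ, 0 < N → M ∣ N → ∃ t : ℕ, 1 ≤ t ∧ t ≤ R r ∧
      ∀ ε : ℝ, 0 < ε → ∃ B n₀ : ℕ, ∀ F : Finset ℕ, n₀ ≤ F.card →
        ∃ c : Fin t → ℕ, (∀ i, c i ≤ B) ∧ ∃ Z ⊆ F, (Z.card : ℝ) ≤ ε * F.card ∧
          ∀ u ∈ F, u ∉ Z → ∃ i, ∀ j, Time (D j) (e j) T (A j * (N * (u + c i))) := by
  obtain ⟨M, K, hM, h⟩ := Pool.Agent.Q84.OT.pure_times r hr D A e hD he0 he hcop hA T
  refine ⟨M, hM, fun N hN hd => ?_⟩
  obtain ⟨t, ht1, ht2, ht⟩ := Pool.Agent.Q84.PP.transl (Pool.Agent.Q84.PP.one_le_R r) (h N hN hd)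
  refine ⟨t, ht1, ht2, fun ε hε => ?_⟩
  obtain ⟨B, n₀, hB⟩ := ht ε hε
  refine ⟨B, n₀, fun F hF => ?_⟩
  obtain ⟨c, hc, Z, hZF, hZ, hZc⟩ := hB F hF
  exact ⟨c, hc, Z, hZF, hZ, fun u hu huZ => hZc u hu huZ⟩

end Pool.Agent.Results.MP_9f2731_nt.TimesNearEverySet
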